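import Pool.Agent.UL6.Stmts

/-!
# UL6, row PNM: the normalised area inequality
-/

set_option autoImplicit false

namespace Pool.Agent.UL6.H60

open MeasureTheory Set Pool.Agent.UL3 Pool.Agent.UL4 Pool.Agent.UL5

/-- The real inequality behind the mixed case. -/
theorem alg (l x y x' y' D E : ℝ) (hl1 : 1 < l) (hD : D = 1 + l / 2 - l ^ 2 / 2)
    (hE : E = 1 + l - l ^ 2)
    (hy : 0 ≤ y) (hx : x ≤ l / 2 * y - 1) (hy' : 0 ≤ y') (hx' : 1 - l / 2 * y' ≤ x')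
    (h1 : l * y ≤ 2 * E) (h2 : l * y' ≤ 2 * E) :
    2 * D * (l - 1) ≤ (x' - l ^ 2 / 2 - -(l / 2)) * (y + l - 1) -
      (y' + l - 1) * (x + l ^ 2 / 2 - l / 2) := by
  have a1 : 0 ≤ y + l - 1 := by linarith
  have a2 : 0 ≤ y' + l - 1 := by linarith
  have b1 : (D - l / 2 * y') * (y + l - 1) ≤ (x' - l ^ 2 / 2 - -(l / 2)) * (y + l - 1) := by
    apply mul_le_mul_of_nonneg_right _ a1
    rw [hD]; linarith
  have b2 : (y' + l - 1) * (x + l ^ 2 / 2 - l / 2) ≤ (y' + l - 1) * (-(D - l / 2 * y)) := by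
    apply mul_le_mul_of_nonneg_left _ a2
    rw [hD]; linarith
  have c1 : l * y * y' ≤ 2 * E * y' := mul_le_mul_of_nonneg_right h1 hy'
  have c2 : l * y' * y ≤ 2 * E * y := mul_le_mul_of_nonneg_right h2 hy
  have c3 : l * y * y' ≤ E * (y + y') := by nlinarith
  have e : (D - l / 2 * y') * (y + l - 1) + (y' + l - 1) * (D - l / 2 * y) =
      2 * D * (l - 1) + E * (y + y') - l * y * y' := by
    rw [hD, hE]; ring
  nlinarith

theorem pnm (h1 : PqaStmt) (h2 : PnaStmt) : PnmStmt := by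
  intro C l hC hl1 hl2 hu hui hA hB hlev hch
  obtain ⟨⟨x, y, hy, hx, hq⟩, x', y', hy', hx', hq'⟩ :=
    h2 C l hC hl1 (by linarith) hu hui hA hB hlev hch
  have hp := h1 C l (x + l ^ 2 / 2, y + l) (x' - l ^ 2 / 2, y' + l) hC (by linarith) hu hA hB hq hq'
    (by dsimp only; linarith) (by dsimp only; linarith)
  obtain ⟨p1, p2, p3⟩ := hp
  dsimp only at p2 p3
  have hDpos : 0 ≤ 1 + l / 2 - l ^ 2 / 2 := by nlinarith
  by_cases c1 : 2 * (1 + l - l ^ 2) ≤ l * y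
  · nlinarith
  by_cases c2 : 2 * (1 + l - l ^ 2) ≤ l * y'
  · nlinarith
  push Not at c1 c2
  have key := alg l x y x' y' _ _ hl1 rfl rfl hy hx hy' hx' c1.le c2.le
  simp only [cr, Prod.fst_sub, Prod.snd_sub] at p1
  nlinarith

end Pool.Agent.UL6.H60
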